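import Pool.Agent.H551R3.KokFinal

/-!
# Kokoris algebras in locally admissible varieties over infinite fields
-/

set_option autoImplicit false
set_option linter.unusedSectionVars false

namespace Pool.Agent.Y99.KO

open Pool.Agent.H551R3.Kok

universe u

/-- The left-normed powers: `lpow x 0 = x`, `lpow x (k + 1) = (lpow x k) x`. -/
def lpow {A : Type u} [NonUnitalNonAssocRing A] (x : A) : ℕ → A
  | 0 => x
  | k + 1 => lpow x k * x

/-- `x` is nilpotent: some power `(…((x x) x)…) x` vanishes. -/
def IsNilp {A : Type u} [NonUnitalNonAssocRing A] (x : A) : Prop := ∃ k, lpow x k = 0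

/-- Two-sided ideals (stable under scalars). -/
def IsIdeal {F A : Type u} [Field F] [NonUnitalNonAssocRing A] [Module F A] (I : Submodule F A) :
    Prop := ∀ x ∈ I, ∀ a : A, a * x ∈ I ∧ x * a ∈ I

/-- Primeness: the product of two nonzero ideals is not zero. -/
def IsPrimeAlg (F A : Type u) [Field F] [NonUnitalNonAssocRing A] [Module F A] : Prop :=
  ∀ I J : Submodule F A, IsIdeal I → IsIdeal J → (∀ x ∈ I, ∀ y ∈ J, x * y = 0) → I = ⊥ ∨ J = ⊥

/-- Strongly prime: prime, and no nonzero ideal consists of nilpotent elements. -/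
def StronglyPrime (F A : Type u) [Field F] [NonUnitalNonAssocRing A] [Module F A] : Prop :=
  IsPrimeAlg F A ∧ ∀ I : Submodule F A, IsIdeal I → (∀ x ∈ I, IsNilp x) → I = ⊥

section

variable {A : Type u} [NonUnitalNonAssocRing A] [KokA A]

theorem br_pw_self (x : A) (k : ℕ) : br (pw x k) x = 0 := by
  induction k with
  | zero => exact br_self x
  | succ k ih =>
    change br (P (pw x k) x) x = 0
    rw [br_P KokA.noTwo KokA.kok, br_self, P_zero, ih, zero_P, add_zero]

theorem pw_lpow (x : A) (k : ℕ) : pw x k = (2 ^ k : ℤ) • lpow x k := by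
  induction k with
  | zero => simp [pw, lpow]
  | succ k ih =>
    have h1 : (2 : ℤ) • (pw x k * x) = pw x (k + 1) := by
      rw [two_mul', br_pw_self, add_zero]
      rfl
    rw [← h1, ih, smul_mul_assoc, smul_smul, ← pow_succ']
    rfl

theorem zero_of_two_pow {x : A} (k : ℕ) (h : (2 ^ k : ℤ) • x = 0) : x = 0 := by
  induction k with
  | zero => simpa using h
  | succ k ih =>
    apply ih
    apply (KokA.noTwo : NoTwo A)
    rw [smul_smul, ← pow_succ']
    exact h

theorem nil_iff (x : A) : Nil x ↔ IsNilp x := by
  constructor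
  · rintro ⟨n, hn⟩
    refine ⟨n, zero_of_two_pow n ?_⟩
    rw [← pw_lpow]
    apply em_inj
    rw [em_pw, pow_succ, hn, zero_mul, em_zero]
  · rintro ⟨k, hk⟩
    apply nil_of_pw_eq_zero (k := k)
    rw [pw_lpow, hk, smul_zero]

end

section

variable {F : Type u} [Field F] {A : Type u} [NonUnitalNonAssocRing A] [Module F A]
  [IsScalarTower F A A] [SMulCommClass F A A] [KokA A]

/-- If all commutators of a Kokoris algebra are nilpotent, the algebra is commutative and associative
modulo the ideal of its nilpotent elements. -/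
theorem structure_of (h2 : (2 : F) ≠ 0) (hnil : ∀ a b : A, Nil (br a b)) :
    ∃ N : Submodule F A, (∀ x, x ∈ N ↔ IsNilp x) ∧ IsIdeal N ∧ (∀ a b : A, a * b - b * a ∈ N) ∧
      ∀ a b c : A, a * b * c - a * (b * c) ∈ N := by
  have : NeZero (2 : F) := ⟨h2⟩
  have hbr : ∀ a b : A, br a b ∈ nilSub A F := hnil
  have hP : ∀ x ∈ nilSub A F, ∀ a : A, P a x ∈ nilSub A F := fun x hx a => nil_P hx a
  refine ⟨nilSub A F, fun x => nil_iff x, ?_, fun a b => hbr a b, ?_⟩
  · intro x hx a
    constructor
    · apply half_mem
      rw [two_mul']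
      exact Submodule.add_mem _ (hP x hx a) (hbr a x)
    · apply half_mem
      rw [two_mul', P_comm]
      exact Submodule.add_mem _ (hP x hx a) (hbr x a)
  · intro a b c
    have h1 := KokA.kok a b c
    have h3 : (4 : ℤ) • asc a b c ∈ nilSub A F := by
      have h4 : (4 : ℤ) • asc a b c = jac a b c + br (br a c) b := by
        rw [h1]; abel
      rw [h4]
      exact Submodule.add_mem _ (Submodule.add_mem _ (Submodule.add_mem _ (hbr _ _) (hbr _ _))
        (hbr _ _)) (hbr _ _)
    change asc a b c ∈ nilSub A F
    apply half_mem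
    apply half_mem
    rw [smul_smul]
    exact h3

theorem stronglyPrime_of (h2 : (2 : F) ≠ 0) (hnil : ∀ a b : A, Nil (br a b))
    (hs : StronglyPrime F A) :
    (∀ a b : A, a * b = b * a) ∧ (∀ a b c : A, a * b * c = a * (b * c)) ∧
      ∀ a b : A, a * b = 0 → a = 0 ∨ b = 0 := by
  obtain ⟨N, hN, hI, hc, has⟩ := structure_of h2 hnil
  have hbot : N = ⊥ := hs.2 N hI fun x hx => (hN x).1 hx
  have hcomm : ∀ a b : A, a * b = b * a := by
    intro a b
    have h := hc a b
    rw [hbot, Submodule.mem_bot] at h
    exact sub_eq_zero.1 h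
  have hassoc : ∀ a b c : A, a * b * c = a * (b * c) := by
    intro a b c
    have h := has a b c
    rw [hbot, Submodule.mem_bot] at h
    exact sub_eq_zero.1 h
  refine ⟨hcomm, hassoc, ?_⟩
  intro x y hxy
  by_contra hne
  push Not at hne
  let I : Submodule F A :=
    { carrier := {z | z * y = 0}
      add_mem' := by
        intro s t hs ht
        change (s + t) * y = 0
        rw [add_mul, show s * y = 0 from hs, show t * y = 0 from ht, add_zero]
      zero_mem' := zero_mul y
      smul_mem' := by
        intro r s hs
        change (r • s) * y = 0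
        rw [smul_mul_assoc, show s * y = 0 from hs, smul_zero] }
  let J : Submodule F A :=
    { carrier := {w | ∀ z : A, z * y = 0 → z * w = 0}
      add_mem' := by
        intro s t hs ht z hz
        rw [mul_add, hs z hz, ht z hz, add_zero]
      zero_mem' := by
        intro z _
        exact mul_zero z
      smul_mem' := by
        intro r s hs z hz
        rw [mul_smul_comm, hs z hz, smul_zero] }
  have hI : IsIdeal I := by
    intro z hz a
    have hz' : z * y = 0 := hz
    constructor
    · change a * z * y = 0
      rw [hassoc, hz', mul_zero]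
    · change z * a * y = 0
      rw [hassoc, hcomm a y, ← hassoc, hz', zero_mul]
  have hJ : IsIdeal J := by
    intro w hw a
    have hw' : ∀ z : A, z * y = 0 → z * w = 0 := hw
    have key : ∀ z : A, z * y = 0 → z * (w * a) = 0 := by
      intro z hz
      rw [← hassoc, hw' z hz, zero_mul]
    constructor
    · intro z hz
      rw [hcomm a w]
      exact key z hz
    · exact key
  rcases hs.1 I J hI hJ (fun z hz w hw => hw z hz) with h | h
  · have hx : x ∈ I := hxy
    rw [h, Submodule.mem_bot] at hx
    exact hne.1 hx
  · have hy : y ∈ J := fun z hz => hz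
    rw [h, Submodule.mem_bot] at hy
    exact hne.2 hy

end

/-- Commutators are nilpotent if `A` is an algebra over an infinite field `C ⊇ F`. -/
theorem nil_br_infinite {F : Type u} (C : Type u) [Field F] [Field C] [Infinite C] [Algebra F C]
    {A : Type u} [NonUnitalNonAssocRing A] [Module F A] [IsScalarTower F A A] [SMulCommClass F A A]
    [Module C A] [IsScalarTower C A A] [SMulCommClass C A A] [IsScalarTower F C A] [KokA A]
    [NeZero (2 : F)] {T : Set (FreeNonUnitalNonAssocAlgebra F ℕ)}
    (hT : LocallyAdmissible T) (hA : Sat T A) (a b : A) : Nil (br a b) := by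
  by_contra hab
  exact not_locallyAdmissible_infinite (C := C) hA hab hT

end Pool.Agent.Y99.KO
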